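import Pool.Agent.H174.GP.StA
import Pool.Agent.H174.GP.StP
import Pool.Agent.H174.GP.StC

/-!
# Moment generating functions of the quantile map
-/

set_option autoImplicit false

open MeasureTheory ProbabilityTheory Finset

namespace Pool.Agent.H234.GP174

open Pool.Agent.H174.GP

theorem exp_le_quad (y : ℝ) : Real.exp y ≤ 1 + y + y ^ 2 * Real.exp |y| := by
  have h := Complex.norm_exp_sub_sum_le_norm_mul_exp (y : ℂ) 2
  have h1 : (∑ m ∈ Finset.range 2, (y : ℂ) ^ m / (m.factorial : ℂ)) = ((1 + y : ℝ) : ℂ) := by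
    simp [Finset.sum_range_succ]
  rw [h1, ← Complex.ofReal_exp, ← Complex.ofReal_sub, Complex.norm_real, Complex.norm_real,
    Real.norm_eq_abs, Real.norm_eq_abs, sq_abs] at h
  have h2 := le_abs_self (Real.exp y - (1 + y))
  linarith

theorem integral_odd (f : ℝ → ℝ) (hodd : ∀ x, f (-x) = - f x) : (∫ x, f x ∂lap) = 0 := by
  have h1 : (∫ x, f x ∂lap) = ∫ x, (Real.exp (-|x|) / 2) • f x := by
    unfold lap
    rw [integral_withDensity_eq_integral_toReal_smul (by fun_prop)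
      (Filter.Eventually.of_forall fun x => ENNReal.ofReal_lt_top)]
    refine integral_congr_ae (Filter.Eventually.of_forall fun x => ?_)
    simp only
    rw [ENNReal.toReal_ofReal (by positivity)]
  have h2 : (∫ x, (Real.exp (-|x|) / 2) • f x) = - ∫ x, (Real.exp (-|x|) / 2) • f x := by
    conv_lhs => rw [← integral_neg_eq_self]
    rw [← integral_neg]
    refine integral_congr_ae (Filter.Eventually.of_forall fun x => ?_)
    simp only
    rw [abs_neg, hodd, smul_neg]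
  rw [h1]
  linarith

theorem int_quad (h1 : S_L1) (D : ℝ) :
    Integrable (fun x => (|x| + D) ^ 2 * Real.exp ((|x| + D) / 4)) lap := by
  have g0 := h1.2.2.2.2.2 0 (1 / 4) (by norm_num)
  have g1 := h1.2.2.2.2.2 1 (1 / 4) (by norm_num)
  have g2 := h1.2.2.2.2.2 2 (1 / 4) (by norm_num)
  have g := ((g2.add (g1.const_mul (2 * D))).add (g0.const_mul (D ^ 2))).const_mul
    (Real.exp (D / 4))
  refine g.congr (Filter.Eventually.of_forall fun x => ?_)
  simp only [Pi.add_apply]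
  have e : Real.exp ((|x| + D) / 4) = Real.exp (D / 4) * Real.exp (1 / 4 * |x|) := by
    rw [← Real.exp_add]; congr 1; ring
  rw [e]
  ring

theorem int_exp (h1 : S_L1) (D : ℝ) : Integrable (fun x => Real.exp ((|x| + D) / 4)) lap := by
  have g0 := h1.2.2.2.2.2 0 (1 / 4) (by norm_num)
  refine (g0.const_mul (Real.exp (D / 4))).congr (Filter.Eventually.of_forall fun x => ?_)
  simp only
  have e : Real.exp ((|x| + D) / 4) = Real.exp (D / 4) * Real.exp (1 / 4 * |x|) := by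
    rw [← Real.exp_add]; congr 1; ring
  rw [e, pow_zero, one_mul]

theorem int_lin (h1 : S_L1) (D a : ℝ) : Integrable (fun x => (|x| + D) / a) lap := by
  have g1 := h1.2.2.2.2.1 1
  have g2 : Integrable (fun _ : ℝ => D) lap := integrable_const D
  refine ((g1.add g2).div_const a).congr (Filter.Eventually.of_forall fun x => ?_)
  simp only [Pi.add_apply, pow_one]

/-- the general bound -/
theorem gen (h1 : S_L1) (Y : ℝ → ℝ) (hY : Measurable Y) (D a θ : ℝ) (hD : 0 ≤ D) (ha : 0 < a)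
    (hb : ∀ x, |Y x| ≤ (|x| + D) / a) (h0 : (∫ x, Y x ∂lap) = 0) (hθ : |θ| ≤ a / 4) :
    Integrable (fun x => Real.exp (θ * Y x)) lap ∧ (∫ x, Real.exp (θ * Y x) ∂lap) ≤
      Real.exp ((∫ x, (|x| + D) ^ 2 * Real.exp ((|x| + D) / 4) ∂lap) * θ ^ 2 / a ^ 2) := by
  have hlin : ∀ x, |θ * Y x| ≤ (|x| + D) / 4 := by
    intro x
    rw [abs_mul]
    calc |θ| * |Y x| ≤ (a / 4) * ((|x| + D) / a) :=
          mul_le_mul hθ (hb x) (abs_nonneg _) (by positivity)
      _ = (|x| + D) / 4 := by field_simp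
  have hI : Integrable (fun x => Real.exp (θ * Y x)) lap := by
    refine (int_exp h1 D).mono' (by fun_prop) (Filter.Eventually.of_forall fun x => ?_)
    rw [Real.norm_eq_abs, abs_of_pos (Real.exp_pos _)]
    exact Real.exp_le_exp.2 ((le_abs_self _).trans (hlin x))
  have hYI : Integrable Y lap := by
    refine (int_lin h1 D a).mono' hY.aestronglyMeasurable (Filter.Eventually.of_forall fun x => ?_)
    rw [Real.norm_eq_abs]
    exact hb x
  have hQI := int_quad h1 D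
  refine ⟨hI, ?_⟩
  set C : ℝ := ∫ x, (|x| + D) ^ 2 * Real.exp ((|x| + D) / 4) ∂lap with hC
  have hpt : ∀ x, Real.exp (θ * Y x) ≤ 1 + θ * Y x +
      (θ ^ 2 / a ^ 2) * ((|x| + D) ^ 2 * Real.exp ((|x| + D) / 4)) := by
    intro x
    refine (exp_le_quad (θ * Y x)).trans ?_
    have g1 : (θ * Y x) ^ 2 ≤ θ ^ 2 / a ^ 2 * (|x| + D) ^ 2 := by
      rw [mul_pow, div_mul_eq_mul_div, mul_div_assoc, ← div_pow]
      refine mul_le_mul_of_nonneg_left ?_ (sq_nonneg _)
      rw [← sq_abs (Y x)]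
      exact pow_le_pow_left₀ (abs_nonneg _) (hb x) 2
    have g2 : Real.exp |θ * Y x| ≤ Real.exp ((|x| + D) / 4) := Real.exp_le_exp.2 (hlin x)
    have g3 : (θ * Y x) ^ 2 * Real.exp |θ * Y x| ≤
        θ ^ 2 / a ^ 2 * (|x| + D) ^ 2 * Real.exp ((|x| + D) / 4) :=
      mul_le_mul g1 g2 (Real.exp_pos _).le (by positivity)
    linarith
  have hRI : Integrable (fun x => 1 + θ * Y x +
      (θ ^ 2 / a ^ 2) * ((|x| + D) ^ 2 * Real.exp ((|x| + D) / 4))) lap :=
    (((integrable_const (1 : ℝ)).add (hYI.const_mul θ)).add (hQI.const_mul _))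
  have hle := integral_mono hI hRI hpt
  have heq : (∫ x, (1 + θ * Y x +
      (θ ^ 2 / a ^ 2) * ((|x| + D) ^ 2 * Real.exp ((|x| + D) / 4))) ∂lap) =
      1 + (θ ^ 2 / a ^ 2) * C := by
    have e1 : (∫ x, (1 + θ * Y x +
      (θ ^ 2 / a ^ 2) * ((|x| + D) ^ 2 * Real.exp ((|x| + D) / 4))) ∂lap) =
      (∫ x, (1 + θ * Y x) ∂lap) +
      ∫ x, (θ ^ 2 / a ^ 2) * ((|x| + D) ^ 2 * Real.exp ((|x| + D) / 4)) ∂lap :=
      integral_add ((integrable_const (1 : ℝ)).add (hYI.const_mul θ)) (hQI.const_mul _)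
    have e2 : (∫ x, (1 + θ * Y x) ∂lap) = (∫ _x, (1 : ℝ) ∂lap) + ∫ x, θ * Y x ∂lap :=
      integral_add (integrable_const (1 : ℝ)) (hYI.const_mul θ)
    rw [e1, e2, integral_const_mul, integral_const_mul, h0, ← hC]
    simp
  rw [heq] at hle
  refine hle.trans ?_
  have e3 : C * θ ^ 2 / a ^ 2 = (θ ^ 2 / a ^ 2) * C := by ring
  rw [e3]
  have := Real.add_one_le_exp ((θ ^ 2 / a ^ 2) * C)
  linarith

theorem gp_mgf (h1 : S_L1) (h2 : S_Tq) : Pool.Agent.H174.GP.S_mgf := by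
  intro s2 hs2
  set D : ℝ := 1 + 2 * s2 with hD
  set C : ℝ := ∫ x, (|x| + D) ^ 2 * Real.exp ((|x| + D) / 4) ∂lap with hC
  have hC0 : 0 ≤ C := integral_nonneg fun x => by positivity
  refine ⟨C + 1, by linarith, ?_⟩
  intro a θ ha has hθ
  obtain ⟨_, hodd, _, hmeas, hclose⟩ := h2 a ha
  have hTm : Measurable (fun x => (Tq a x : ℝ)) := measurable_from_top.comp hmeas
  have hTb : ∀ x, |(Tq a x : ℝ)| ≤ (|x| + s2) / a := by
    intro x
    have g1 := hclose x
    have g2 : |(Tq a x : ℝ)| ≤ |(Tq a x : ℝ) - x / a| + |x / a| := by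
      have := abs_add_le ((Tq a x : ℝ) - x / a) (x / a)
      rwa [sub_add_cancel] at this
    have g3 : |x / a| = |x| / a := by rw [abs_div, abs_of_pos ha]
    have g4 : (1 : ℝ) ≤ s2 / a := by rw [le_div_iff₀ ha]; linarith
    rw [add_div]
    linarith
  have hTb' : ∀ x, |(Tq a x : ℝ)| ≤ (|x| + D) / a := by
    intro x
    refine (hTb x).trans ?_
    exact div_le_div_of_nonneg_right (by linarith) ha.le
  have hTI : Integrable (fun x => |(Tq a x : ℝ)|) lap := by
    refine (int_lin h1 s2 a).mono' (hTm.aestronglyMeasurable.norm)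
      (Filter.Eventually.of_forall fun x => ?_)
    rw [Real.norm_eq_abs, abs_abs]
    exact hTb x
  have hE0 : 0 ≤ ∫ y, |(Tq a y : ℝ)| ∂lap := integral_nonneg fun x => abs_nonneg _
  have hE1 : (∫ y, |(Tq a y : ℝ)| ∂lap) ≤ (1 + s2) / a := by
    have g1 := integral_mono hTI (int_lin h1 s2 a) hTb
    refine g1.trans (le_of_eq ?_)
    rw [integral_div]
    congr 1
    have g2 : Integrable (fun x : ℝ => |x|) lap := by
      have := h1.2.2.2.2.1 1
      simpa only [pow_one] using this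
    have e1 : (∫ x, (|x| + s2) ∂lap) = (∫ x, |x| ∂lap) + ∫ _x, s2 ∂lap :=
      integral_add g2 (integrable_const _)
    rw [e1, h1.2.2.1]
    simp
  have hfin : Real.exp (C * θ ^ 2 / a ^ 2) ≤ Real.exp ((C + 1) * θ ^ 2 / a ^ 2) := by
    refine Real.exp_le_exp.2 ?_
    refine div_le_div_of_nonneg_right ?_ (sq_nonneg _)
    exact mul_le_mul_of_nonneg_right (by linarith) (sq_nonneg _)
  refine ⟨?_, ?_⟩
  · obtain ⟨g1, g2⟩ := gen h1 (fun x => (Tq a x : ℝ)) hTm D a θ (by positivity) ha hTb'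
      (integral_odd _ fun x => by rw [hodd]; push_cast; ring) hθ
    exact ⟨g1, g2.trans hfin⟩
  · have hb : ∀ x, |(|(Tq a x : ℝ)| - ∫ y, |(Tq a y : ℝ)| ∂lap)| ≤ (|x| + D) / a := by
      intro x
      have g1 := hTb x
      have g2 : |(|(Tq a x : ℝ)| - ∫ y, |(Tq a y : ℝ)| ∂lap)| ≤
          |(Tq a x : ℝ)| + ∫ y, |(Tq a y : ℝ)| ∂lap := by
        have := abs_sub (|(Tq a x : ℝ)|) (∫ y, |(Tq a y : ℝ)| ∂lap)
        rwa [abs_abs, abs_of_nonneg hE0] at this
      have g3 : (|x| + D) / a = (|x| + s2) / a + (1 + s2) / a := by rw [hD]; ring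
      rw [g3]
      linarith
    have h0 : (∫ x, (|(Tq a x : ℝ)| - ∫ y, |(Tq a y : ℝ)| ∂lap) ∂lap) = 0 := by
      rw [integral_sub hTI (integrable_const _)]
      simp
    obtain ⟨g1, g2⟩ := gen h1 (fun x => |(Tq a x : ℝ)| - ∫ y, |(Tq a y : ℝ)| ∂lap)
      (hTm.abs.sub_const _) D a θ (by positivity) ha hb h0 hθ
    exact ⟨g1, g2.trans hfin⟩

end Pool.Agent.H234.GP174
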