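import Pool.Agent.H174.GP.StE
import Pool.Agent.H174.GP.StA
import Pool.Agent.H174.GP.StP

/-!
# Crude lower bound without the first coordinate (project GP, part crude2)

Adapted from `Pool.Agent.H404.GP174.Block` and `Pool.Agent.H729.GP174`: the first coordinate function is replaced by
zero, `AdmW` collects what is needed.
-/

set_option autoImplicit false

open MeasureTheory ProbabilityTheory Finset

namespace Pool.Agent.H234.GP174.Crude2

open Pool.Agent.H174.GP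

/-- Admissible families with `φ 1 = 0`. -/
structure AdmW (φ : ℕ → ℝ → ℝ) (A : ℝ) (L : ℕ) (cv Cv κ : ℝ) : Prop where
  pos : 0 < A
  odd : ∀ j ∈ Finset.Icc 1 L, ∀ x, φ j (-x) = - φ j x
  mono : ∀ j ∈ Finset.Icc 1 L, Monotone (φ j)
  lo : ∀ a : ℕ, 2 ≤ a → a ≤ L → cv * A ^ 2 * a ≤ ∑ j ∈ Finset.Icc 1 a, ∫ x, ((j : ℝ) * φ j x) ^ 2 ∂lap
  two : cv * A ^ 2 / 4 ≤ ∫ x, (φ 2 x) ^ 2 ∂lap
  zero : ∀ x, φ 1 x = 0
  hi : ∀ j ∈ Finset.Icc 1 L, ∫ x, (φ j x) ^ 2 ∂lap ≤ Cv * A ^ 2 / (j : ℝ) ^ 2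
  four : ∀ j ∈ Finset.Icc 1 L, ∫ x, (φ j x) ^ 4 ∂lap ≤ κ * A ^ 4 / (j : ℝ) ^ 4
  int : ∀ j ∈ Finset.Icc 1 L, Integrable (fun x => (φ j x) ^ 4) lap

theorem icc_eq (a : ℕ) : Finset.Icc 1 a = Finset.Ioc 0 a := by
  ext j
  simp only [Finset.mem_Icc, Finset.mem_Ioc]
  omega

theorem Cs_split (y : ℕ → ℝ) (a b L x : ℕ) (hax : a ≤ x) (hxb : x ≤ b) (hbL : b ≤ L) :
    Cs y L x = (∑ j ∈ Finset.Icc 1 a, (j : ℝ) * y j) + (∑ j ∈ Finset.Ioc a x, (j : ℝ) * y j) +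
      x * ((∑ j ∈ Finset.Ioc a b, y j) - ∑ j ∈ Finset.Ioc a x, y j) +
      x * ∑ j ∈ Finset.Ioc b L, y j := by
  unfold Cs
  rw [icc_eq, icc_eq, ← Finset.sum_Ioc_consecutive _ (Nat.zero_le b) hbL,
    ← Finset.sum_Ioc_consecutive _ (Nat.zero_le x) hxb,
    ← Finset.sum_Ioc_consecutive _ (Nat.zero_le a) hax,
    ← Finset.sum_Ioc_consecutive y hax hxb]
  have e1 : ∑ j ∈ Finset.Ioc 0 a, ((min j x : ℕ) : ℝ) * y j =
      ∑ j ∈ Finset.Ioc 0 a, (j : ℝ) * y j := by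
    refine Finset.sum_congr rfl fun j hj => ?_
    rw [Finset.mem_Ioc] at hj
    rw [min_eq_left (by omega)]
  have e2 : ∑ j ∈ Finset.Ioc a x, ((min j x : ℕ) : ℝ) * y j =
      ∑ j ∈ Finset.Ioc a x, (j : ℝ) * y j := by
    refine Finset.sum_congr rfl fun j hj => ?_
    rw [Finset.mem_Ioc] at hj
    rw [min_eq_left (by omega)]
  have e3 : ∑ j ∈ Finset.Ioc x b, ((min j x : ℕ) : ℝ) * y j =
      x * ∑ j ∈ Finset.Ioc x b, y j := by
    rw [Finset.mul_sum]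
    refine Finset.sum_congr rfl fun j hj => ?_
    rw [Finset.mem_Ioc] at hj
    rw [min_eq_right (by omega)]
  have e4 : ∑ j ∈ Finset.Ioc b L, ((min j x : ℕ) : ℝ) * y j =
      x * ∑ j ∈ Finset.Ioc b L, y j := by
    rw [Finset.mul_sum]
    refine Finset.sum_congr rfl fun j hj => ?_
    rw [Finset.mem_Ioc] at hj
    rw [min_eq_right (by omega)]
  rw [e1, e2, e3, e4]
  ring

section facts

variable {φ : ℕ → ℝ → ℝ} {A : ℝ} {L : ℕ} {cv Cv κ : ℝ}

theorem int_sq (j : ℕ) : ∫ x, ((j : ℝ) * φ j x) ^ 2 ∂lap = (j : ℝ) ^ 2 * ∫ x, (φ j x) ^ 2 ∂lap := by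
  rw [← integral_const_mul]
  refine integral_congr_ae (Filter.Eventually.of_forall fun x => ?_)
  simp only [mul_pow]

theorem int_four (j : ℕ) :
    ∫ x, ((j : ℝ) * φ j x) ^ 4 ∂lap = (j : ℝ) ^ 4 * ∫ x, (φ j x) ^ 4 ∂lap := by
  rw [← integral_const_mul]
  refine integral_congr_ae (Filter.Eventually.of_forall fun x => ?_)
  simp only [mul_pow]

theorem sq_hi (hA : AdmW φ A L cv Cv κ) {j : ℕ} (hj : j ∈ Finset.Icc 1 L) :
    ∫ x, ((j : ℝ) * φ j x) ^ 2 ∂lap ≤ Cv * A ^ 2 := by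
  have h := hA.hi j hj
  have hj0 : (0 : ℝ) < j := by
    have := (Finset.mem_Icc.1 hj).1
    exact_mod_cast this
  rw [le_div_iff₀ (by positivity)] at h
  rw [int_sq]
  linarith

theorem four_hi (hA : AdmW φ A L cv Cv κ) {j : ℕ} (hj : j ∈ Finset.Icc 1 L) :
    ∫ x, ((j : ℝ) * φ j x) ^ 4 ∂lap ≤ κ * A ^ 4 := by
  have h := hA.four j hj
  have hj0 : (0 : ℝ) < j := by
    have := (Finset.mem_Icc.1 hj).1
    exact_mod_cast this
  rw [le_div_iff₀ (by positivity)] at h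
  rw [int_four]
  linarith

theorem mul_odd (hA : AdmW φ A L cv Cv κ) {j : ℕ} (hj : j ∈ Finset.Icc 1 L) (x : ℝ) :
    (j : ℝ) * φ j (-x) = - ((j : ℝ) * φ j x) := by
  rw [hA.odd j hj]
  ring

theorem mul_meas (hA : AdmW φ A L cv Cv κ) {j : ℕ} (hj : j ∈ Finset.Icc 1 L) :
    Measurable (fun x => (j : ℝ) * φ j x) :=
  (hA.mono j hj).measurable.const_mul _

theorem mul_int (hA : AdmW φ A L cv Cv κ) {j : ℕ} (hj : j ∈ Finset.Icc 1 L) :
    Integrable (fun x => ((j : ℝ) * φ j x) ^ 4) lap := by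
  have h := (hA.int j hj).const_mul ((j : ℝ) ^ 4)
  have e : (fun x => ((j : ℝ) * φ j x) ^ 4) = fun x => (j : ℝ) ^ 4 * φ j x ^ 4 := by
    funext x
    rw [mul_pow]
  rw [e]
  exact h

end facts

theorem sum_meas (J : Finset ℕ) (ψ : ℕ → ℝ → ℝ) (h : ∀ j ∈ J, Measurable (ψ j)) :
    Measurable (fun ω : ℕ → ℝ => ∑ j ∈ J, ψ j (ω j)) :=
  Finset.measurable_fun_sum J fun j hj => (h j hj).comp (measurable_pi_apply j)

theorem sum_dep (J : Finset ℕ) (ψ : ℕ → ℝ → ℝ) {ω ω' : ℕ → ℝ} (h : ∀ j ∈ J, ω j = ω' j) :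
    ∑ j ∈ J, ψ j (ω j) = ∑ j ∈ J, ψ j (ω' j) :=
  Finset.sum_congr rfl fun j hj => by rw [h j hj]

/-- the window statement -/
def BlockW : Prop := ∀ cv Cv κ : ℝ, 0 < cv → 0 < Cv → 0 < κ → ∃ h : ℝ, 0 < h ∧ h ≤ 1 / 2 ∧ ∃ c1 : ℝ, 0 < c1 ∧ c1 ≤ 1 / 2 ∧
  ∃ δ0 : ℝ, 0 < δ0 ∧ ∀ (φ : ℕ → ℝ → ℝ) (A : ℝ) (L a b : ℕ), AdmW φ A L cv Cv κ → 2 ≤ L → 1 ≤ a → a ≤ b → b ≤ L →
    (b : ℝ) ≤ (1 + h) * a →
    c1 ≤ PP.real {ω | ∀ x ∈ Finset.Icc a b, δ0 * A * Real.sqrt x ≤ Cs (fun j => φ j (ω j)) L x}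

theorem blockW_one (h1 : S_indep) (h2 : S_half) (h4 : S_pz) {cv Cv κ : ℝ} (hcv : 0 < cv) (hκ : 0 < κ)
    {φ : ℕ → ℝ → ℝ} {A : ℝ} {L : ℕ} (hA : AdmW φ A L cv Cv κ) (hL : 2 ≤ L) :
    (9 / 32) / (3 + κ / cv ^ 2) / 4 ≤
      PP.real {ω | ∀ x ∈ Finset.Icc 1 1, √cv / 8 * A * Real.sqrt (x : ℕ) ≤ Cs (fun j => φ j (ω j)) L x} := by
  have hA0 := hA.pos
  obtain ⟨c0, hc0⟩ : ∃ c0 : ℝ, c0 = (9 / 32) / (3 + κ / cv ^ 2) := ⟨_, rfl⟩
  have hκ' : 0 < κ / cv ^ 2 := by positivity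
  have hc00 : 0 < c0 := by
    rw [hc0]
    positivity
  rw [← hc0]
  have J2 : (2 : ℕ) ∈ Finset.Icc 1 L := Finset.mem_Icc.2 ⟨by norm_num, hL⟩
  have I3 : Finset.Ioc 2 L ⊆ Finset.Icc 1 L := by
    intro j hj
    rw [Finset.mem_Ioc] at hj
    rw [Finset.mem_Icc]
    omega
  obtain ⟨E1, hE1⟩ : ∃ E1 : Set (ℕ → ℝ), E1 = {ω | √cv / 8 * A ≤ φ 2 (ω 2)} := ⟨_, rfl⟩
  obtain ⟨E3, hE3⟩ : ∃ E3 : Set (ℕ → ℝ), E3 = {ω | 0 ≤ ∑ j ∈ Finset.Ioc 2 L, φ j (ω j)} := ⟨_, rfl⟩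
  have p1 : c0 ≤ PP.real E1 := by
    have key := h4 {2} φ (κ / cv ^ 2) hκ'.le
      (fun j hj => by
        rw [Finset.mem_singleton] at hj
        rw [hj]
        exact (hA.mono 2 J2).measurable)
      (fun j hj => by
        rw [Finset.mem_singleton] at hj
        rw [hj]
        exact hA.odd 2 J2)
      (fun j hj => by
        rw [Finset.mem_singleton] at hj
        rw [hj]
        exact hA.int 2 J2)
      (by
        rw [Finset.sum_singleton, Finset.sum_singleton]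
        have g1 := hA.four 2 J2
        have g2 := hA.two
        have g3 : (cv * A ^ 2 / 4) ^ 2 ≤ (∫ x, (φ 2 x) ^ 2 ∂lap) ^ 2 :=
          pow_le_pow_left₀ (by positivity) g2 2
        have g4 : κ * A ^ 4 / ((2 : ℕ) : ℝ) ^ 4 = κ / cv ^ 2 * (cv * A ^ 2 / 4) ^ 2 := by
          push_cast
          field_simp
          norm_num
        rw [g4] at g1
        exact g1.trans (mul_le_mul_of_nonneg_left g3 hκ'.le))
    rw [← hc0] at key
    refine key.trans (measureReal_mono ?_)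
    intro ω hω
    rw [hE1]
    have hω' : √(∑ j ∈ ({2} : Finset ℕ), ∫ x, (φ j x) ^ 2 ∂lap) / 2 ≤
      ∑ j ∈ ({2} : Finset ℕ), φ j (ω j) := hω
    rw [Finset.sum_singleton, Finset.sum_singleton] at hω'
    show √cv / 8 * A ≤ φ 2 (ω 2)
    refine le_trans ?_ hω'
    have g5 : √cv * A / 2 ≤ √(∫ x, (φ 2 x) ^ 2 ∂lap) := by
      apply Real.le_sqrt_of_sq_le
      rw [div_pow, mul_pow, Real.sq_sqrt hcv.le]
      have := hA.two
      linarith
    have g6 : 0 < √cv * A := by positivity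
    linarith
  have p3 : 1 / 2 ≤ PP.real E3 := by
    rw [hE3]
    exact h2 (Finset.Ioc 2 L) φ (fun j hj => (hA.mono j (I3 hj)).measurable)
      (fun j hj => hA.odd j (I3 hj))
  have m1 : MeasurableSet E1 := by
    rw [hE1]
    exact measurableSet_le measurable_const ((hA.mono 2 J2).measurable.comp (measurable_pi_apply 2))
  have m3 : MeasurableSet E3 := by
    rw [hE3]
    exact measurableSet_le measurable_const (sum_meas _ φ fun j hj => (hA.mono j (I3 hj)).measurable)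
  have d1 : DepOn {2} E1 := by
    rw [hE1]
    intro ω ω' hω hm
    have h6 : √cv / 8 * A ≤ φ 2 (ω 2) := hm
    show √cv / 8 * A ≤ φ 2 (ω' 2)
    rw [← hω 2 (Finset.mem_singleton_self 2)]
    exact h6
  have d3 : DepOn (Finset.Ioc 2 L) E3 := by
    rw [hE3]
    intro ω ω' hω hm
    have h5 := sum_dep (Finset.Ioc 2 L) φ hω
    show 0 ≤ ∑ j ∈ Finset.Ioc 2 L, φ j (ω' j)
    have h6 : 0 ≤ ∑ j ∈ Finset.Ioc 2 L, φ j (ω j) := hm
    linarith
  have x1 : PP.real (E1 ∩ E3) = PP.real E1 * PP.real E3 := by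
    refine h1 {2} (Finset.Ioc 2 L) E1 E3 ?_ m1 m3 d1 d3
    rw [Finset.disjoint_left]
    intro j hj hj'
    rw [Finset.mem_singleton] at hj
    rw [Finset.mem_Ioc] at hj'
    omega
  have x3 : c0 / 4 ≤ PP.real (E1 ∩ E3) := by
    rw [x1]
    have y2 : c0 * (1 / 2 : ℝ) ≤ PP.real E1 * PP.real E3 :=
      mul_le_mul p1 p3 (by norm_num) (by linarith)
    linarith
  refine x3.trans (measureReal_mono ?_)
  rintro ω ⟨w1, w3⟩
  show ∀ x ∈ Finset.Icc 1 1, √cv / 8 * A * √((x : ℕ) : ℝ) ≤ Cs (fun j => φ j (ω j)) L x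
  intro x hx
  have hx' : x = 1 := by
    rw [Finset.mem_Icc] at hx
    omega
  rw [hx']
  rw [hE1] at w1
  rw [hE3] at w3
  have w1' : √cv / 8 * A ≤ φ 2 (ω 2) := w1
  have w3' : 0 ≤ ∑ j ∈ Finset.Ioc 2 L, φ j (ω j) := w3
  have e1 : Cs (fun j => φ j (ω j)) L 1 = φ 2 (ω 2) + ∑ j ∈ Finset.Ioc 2 L, φ j (ω j) := by
    unfold Cs
    rw [icc_eq, ← Finset.sum_Ioc_consecutive _ (Nat.zero_le 2) hL]
    have e2 : ∀ j : ℕ, j ∈ Finset.Ioc 2 L → ((min j 1 : ℕ) : ℝ) * φ j (ω j) = φ j (ω j) := by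
      intro j hj
      rw [Finset.mem_Ioc] at hj
      rw [min_eq_right (by omega), Nat.cast_one, one_mul]
    rw [Finset.sum_congr rfl e2]
    have e3 : Finset.Ioc 0 2 = {1, 2} := rfl
    rw [e3, Finset.sum_pair (by norm_num)]
    simp only [hA.zero]
    norm_num
  rw [e1, Nat.cast_one, Real.sqrt_one, mul_one]
  linarith

theorem blockW (h1 : S_indep) (h2 : S_half) (h3 : S_cheb) (h4 : S_pz) : BlockW := by
  intro cv Cv κ hcv hCv hκ
  obtain ⟨h, hh⟩ : ∃ h : ℝ, h = min (1 / 2) (cv / (2560 * Cv)) := ⟨_, rfl⟩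
  have hh0 : 0 < h := by
    rw [hh]
    exact lt_min (by norm_num) (by positivity)
  have hh1 : h ≤ 1 / 2 := by
    rw [hh]
    exact min_le_left _ _
  have hh2 : h ≤ cv / (2560 * Cv) := by
    rw [hh]
    exact min_le_right _ _
  obtain ⟨c0, hc0⟩ : ∃ c0 : ℝ, c0 = (9 / 32) / (3 + κ / cv ^ 2) := ⟨_, rfl⟩
  have hκ' : 0 < κ / cv ^ 2 := by positivity
  have hc00 : 0 < c0 := by
    rw [hc0]
    positivity
  have hc01 : c0 ≤ 1 := by
    rw [hc0, div_le_one (by positivity)]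
    linarith
  refine ⟨h, hh0, hh1, c0 / 4, by positivity, by linarith, √cv / 8, by positivity, ?_⟩
  intro φ A L a b hA hL ha hab hbL hbh
  rcases Nat.lt_or_ge a 2 with ha2 | ha2
  · have ha1 : a = 1 := by omega
    subst ha1
    have hb1 : b = 1 := by
      have g1 : (b : ℝ) < 2 := by
        push_cast at hbh
        linarith
      have g2 : b < 2 := by exact_mod_cast g1
      omega
    subst hb1
    rw [hc0]
    exact blockW_one h1 h2 h4 hcv hκ hA hL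
  have hA0 := hA.pos
  have har : (1 : ℝ) ≤ a := by exact_mod_cast ha
  have ha0 : (0 : ℝ) < a := by linarith
  obtain ⟨s, hs⟩ : ∃ s : ℝ, s = A * √(cv * a) := ⟨_, rfl⟩
  have hs0 : 0 < s := by
    rw [hs]
    positivity
  have hs2 : s ^ 2 = cv * A ^ 2 * a := by
    rw [hs, mul_pow, Real.sq_sqrt (by positivity)]
    ring
  have I1 : Finset.Icc 1 a ⊆ Finset.Icc 1 L := Finset.Icc_subset_Icc_right (hab.trans hbL)
  have I2 : Finset.Ioc a b ⊆ Finset.Icc 1 L := by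
    intro j hj
    rw [Finset.mem_Ioc] at hj
    rw [Finset.mem_Icc]
    omega
  have I3 : Finset.Ioc b L ⊆ Finset.Icc 1 L := by
    intro j hj
    rw [Finset.mem_Ioc] at hj
    rw [Finset.mem_Icc]
    omega
  -- the three events
  obtain ⟨E1, hE1⟩ : ∃ E1 : Set (ℕ → ℝ),
    E1 = {ω | s / 2 ≤ ∑ j ∈ Finset.Icc 1 a, (j : ℝ) * φ j (ω j)} := ⟨_, rfl⟩
  obtain ⟨E2, hE2⟩ : ∃ E2 : Set (ℕ → ℝ),
    E2 = ⋂ x ∈ Finset.Icc a b, {ω | |∑ j ∈ Finset.Ioc a x, (j : ℝ) * φ j (ω j)| < s / 8 ∧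
      |∑ j ∈ Finset.Ioc a x, φ j (ω j)| < s / 8 / (3 * a)} := ⟨_, rfl⟩
  obtain ⟨E3, hE3⟩ : ∃ E3 : Set (ℕ → ℝ), E3 = {ω | 0 ≤ ∑ j ∈ Finset.Ioc b L, φ j (ω j)} := ⟨_, rfl⟩
  -- probabilities
  have p1 : c0 ≤ PP.real E1 := by
    have hV : cv * A ^ 2 * a ≤ ∑ j ∈ Finset.Icc 1 a, ∫ x, ((j : ℝ) * φ j x) ^ 2 ∂lap :=
      hA.lo a ha2 (hab.trans hbL)
    have hF : ∑ j ∈ Finset.Icc 1 a, ∫ x, ((j : ℝ) * φ j x) ^ 4 ∂lap ≤ κ * A ^ 4 * a := by
      have := Finset.sum_le_card_nsmul (Finset.Icc 1 a)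
        (fun j => ∫ x, ((j : ℝ) * φ j x) ^ 4 ∂lap) (κ * A ^ 4) (fun j hj => four_hi hA (I1 hj))
      rw [Nat.card_Icc, Nat.add_sub_cancel, nsmul_eq_mul] at this
      linarith
    have key := h4 (Finset.Icc 1 a) (fun j x => (j : ℝ) * φ j x) (κ / cv ^ 2) hκ'.le
      (fun j hj => mul_meas hA (I1 hj)) (fun j hj => mul_odd hA (I1 hj))
      (fun j hj => mul_int hA (I1 hj)) (by
        refine hF.trans ?_
        have hV2 : (cv * A ^ 2 * a) ^ 2 ≤
            (∑ j ∈ Finset.Icc 1 a, ∫ x, ((j : ℝ) * φ j x) ^ 2 ∂lap) ^ 2 :=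
          pow_le_pow_left₀ (by positivity) hV 2
        calc κ * A ^ 4 * a ≤ κ * A ^ 4 * a * a := le_mul_of_one_le_right (by positivity) har
          _ = κ / cv ^ 2 * (cv * A ^ 2 * a) ^ 2 := by
              field_simp
          _ ≤ _ := mul_le_mul_of_nonneg_left hV2 hκ'.le)
    rw [← hc0] at key
    refine key.trans (measureReal_mono ?_)
    intro ω hω
    rw [hE1]
    have hω' : √(∑ j ∈ Finset.Icc 1 a, ∫ x, ((j : ℝ) * φ j x) ^ 2 ∂lap) / 2 ≤
      ∑ j ∈ Finset.Icc 1 a, (j : ℝ) * φ j (ω j) := hω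
    show s / 2 ≤ ∑ j ∈ Finset.Icc 1 a, (j : ℝ) * φ j (ω j)
    refine le_trans ?_ hω'
    have : s ≤ √(∑ j ∈ Finset.Icc 1 a, ∫ x, ((j : ℝ) * φ j x) ^ 2 ∂lap) := by
      apply Real.le_sqrt_of_sq_le
      rw [hs2]
      exact hV
    linarith
  have p3 : 1 / 2 ≤ PP.real E3 := by
    rw [hE3]
    exact h2 (Finset.Ioc b L) φ (fun j hj => (hA.mono j (I3 hj)).measurable)
      (fun j hj => hA.odd j (I3 hj))
  have hba : (b : ℝ) - a ≤ h * a := by linarith
  have hba0 : (0 : ℝ) ≤ (b : ℝ) - a := by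
    have : (a : ℝ) ≤ b := by exact_mod_cast hab
    linarith
  have p2 : 1 / 2 ≤ PP.real E2 := by
    have q1 := h3 a b (fun j x => (j : ℝ) * φ j x) (s / 8) hab (by positivity)
      (fun j hj => mul_meas hA (I2 hj)) (fun j hj => mul_odd hA (I2 hj))
      (fun j hj => mul_int hA (I2 hj))
    have q2 := h3 a b φ (s / 8 / (3 * a)) hab (by positivity)
      (fun j hj => (hA.mono j (I2 hj)).measurable) (fun j hj => hA.odd j (I2 hj))
      (fun j hj => hA.int j (I2 hj))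
    have r1 : ∑ j ∈ Finset.Ioc a b, ∫ x, ((j : ℝ) * φ j x) ^ 2 ∂lap ≤ (b - a) * (Cv * A ^ 2) := by
      have := Finset.sum_le_card_nsmul (Finset.Ioc a b)
        (fun j => ∫ x, ((j : ℝ) * φ j x) ^ 2 ∂lap) (Cv * A ^ 2) (fun j hj => sq_hi hA (I2 hj))
      rw [Nat.card_Ioc, nsmul_eq_mul, Nat.cast_sub hab] at this
      exact this
    have r2 : ∑ j ∈ Finset.Ioc a b, ∫ x, (φ j x) ^ 2 ∂lap ≤ (b - a) * (Cv * A ^ 2 / a ^ 2) := by
      have := Finset.sum_le_card_nsmul (Finset.Ioc a b)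
        (fun j => ∫ x, (φ j x) ^ 2 ∂lap) (Cv * A ^ 2 / a ^ 2) (fun j hj => by
          refine (hA.hi j (I2 hj)).trans ?_
          have hj1 : (a : ℝ) ≤ j := by
            have := (Finset.mem_Ioc.1 hj).1
            exact_mod_cast this.le
          exact div_le_div_of_nonneg_left (by positivity) (by positivity)
            (pow_le_pow_left₀ ha0.le hj1 2))
      rw [Nat.card_Ioc, nsmul_eq_mul, Nat.cast_sub hab] at this
      exact this
    have t1 : 2 * (∑ j ∈ Finset.Ioc a b, ∫ x, ((j : ℝ) * φ j x) ^ 2 ∂lap) / (s / 8) ^ 2 ≤ 1 / 20 := by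
      rw [div_le_iff₀ (by positivity), div_pow, hs2]
      have w1 : (b - a) * (Cv * A ^ 2) ≤ (h * a) * (Cv * A ^ 2) :=
        mul_le_mul_of_nonneg_right hba (by positivity)
      have w2 : (h * a) * (Cv * A ^ 2) ≤ (cv / (2560 * Cv) * a) * (Cv * A ^ 2) :=
        mul_le_mul_of_nonneg_right (mul_le_mul_of_nonneg_right hh2 ha0.le) (by positivity)
      have w3 : (cv / (2560 * Cv) * a) * (Cv * A ^ 2) = cv * A ^ 2 * a / 2560 := by
        field_simp
      rw [w3] at w2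
      have w4 : 0 < cv * A ^ 2 * a := by positivity
      linarith
    have t2 : 2 * (∑ j ∈ Finset.Ioc a b, ∫ x, (φ j x) ^ 2 ∂lap) / (s / 8 / (3 * a)) ^ 2 ≤
        9 / 20 := by
      have e5 : (s / 8 / (3 * a)) ^ 2 = cv * A ^ 2 * a / (576 * a ^ 2) := by
        rw [div_pow, div_pow, hs2]
        field_simp
        norm_num
      rw [e5, div_le_iff₀ (by positivity)]
      have w1 : (b - a) * (Cv * A ^ 2 / a ^ 2) ≤ (h * a) * (Cv * A ^ 2 / a ^ 2) :=
        mul_le_mul_of_nonneg_right hba (by positivity)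
      have w2 : (h * a) * (Cv * A ^ 2 / a ^ 2) ≤ (cv / (2560 * Cv) * a) * (Cv * A ^ 2 / a ^ 2) :=
        mul_le_mul_of_nonneg_right (mul_le_mul_of_nonneg_right hh2 ha0.le) (by positivity)
      have w3 : (cv / (2560 * Cv) * a) * (Cv * A ^ 2 / a ^ 2) =
          (cv * A ^ 2 * a / (576 * a ^ 2)) * (576 / 2560) := by
        field_simp
      rw [w3] at w2
      have w4 : 0 < cv * A ^ 2 * a / (576 * a ^ 2) := by positivity
      linarith
    have t3 := q1.trans t1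
    have t4 := q2.trans t2
    have cover : (Set.univ : Set (ℕ → ℝ)) ⊆ E2 ∪
        ({ω | ∃ l ∈ Finset.Icc a b, s / 8 ≤ |∑ j ∈ Finset.Ioc a l, (j : ℝ) * φ j (ω j)|} ∪
         {ω | ∃ l ∈ Finset.Icc a b, s / 8 / (3 * a) ≤ |∑ j ∈ Finset.Ioc a l, φ j (ω j)|}) := by
      intro ω _
      by_contra hcon
      rw [Set.mem_union, Set.mem_union] at hcon
      push Not at hcon
      obtain ⟨g1, g2, g3⟩ := hcon
      apply g1
      rw [hE2]
      simp only [Set.mem_iInter]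
      intro x hx
      constructor
      · by_contra g4
        push Not at g4
        exact g2 ⟨x, hx, g4⟩
      · by_contra g4
        push Not at g4
        exact g3 ⟨x, hx, g4⟩
    have u1 := measureReal_mono (μ := PP) cover
    have u2 := measureReal_union_le (μ := PP) E2
      ({ω | ∃ l ∈ Finset.Icc a b, s / 8 ≤ |∑ j ∈ Finset.Ioc a l, (j : ℝ) * φ j (ω j)|} ∪
         {ω | ∃ l ∈ Finset.Icc a b, s / 8 / (3 * a) ≤ |∑ j ∈ Finset.Ioc a l, φ j (ω j)|})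
    have u3 := measureReal_union_le (μ := PP)
      {ω | ∃ l ∈ Finset.Icc a b, s / 8 ≤ |∑ j ∈ Finset.Ioc a l, (j : ℝ) * φ j (ω j)|}
         {ω | ∃ l ∈ Finset.Icc a b, s / 8 / (3 * a) ≤ |∑ j ∈ Finset.Ioc a l, φ j (ω j)|}
    rw [probReal_univ] at u1
    linarith
  -- measurability and dependence
  have m1 : MeasurableSet E1 := by
    rw [hE1]
    exact measurableSet_le measurable_const
      (sum_meas _ (fun j x => (j : ℝ) * φ j x) fun j hj => mul_meas hA (I1 hj))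
  have m2 : MeasurableSet E2 := by
    rw [hE2]
    refine Finset.measurableSet_biInter _ fun x hx => ?_
    have hsub : Finset.Ioc a x ⊆ Finset.Icc 1 L :=
      (Finset.Ioc_subset_Ioc_right (Finset.mem_Icc.1 hx).2).trans I2
    have n1 : Measurable (fun ω : ℕ → ℝ => |∑ j ∈ Finset.Ioc a x, (j : ℝ) * φ j (ω j)|) :=
      (sum_meas _ (fun j x => (j : ℝ) * φ j x) fun j hj => mul_meas hA (hsub hj)).abs
    have n2 : Measurable (fun ω : ℕ → ℝ => |∑ j ∈ Finset.Ioc a x, φ j (ω j)|) :=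
      (sum_meas _ φ fun j hj => (hA.mono j (hsub hj)).measurable).abs
    have n3 : MeasurableSet {ω : ℕ → ℝ | |∑ j ∈ Finset.Ioc a x, (j : ℝ) * φ j (ω j)| < s / 8} :=
      measurableSet_lt n1 measurable_const
    have n4 : MeasurableSet {ω : ℕ → ℝ | |∑ j ∈ Finset.Ioc a x, φ j (ω j)| < s / 8 / (3 * a)} :=
      measurableSet_lt n2 measurable_const
    exact n3.inter n4
  have m3 : MeasurableSet E3 := by
    rw [hE3]
    exact measurableSet_le measurable_const (sum_meas _ φ fun j hj => (hA.mono j (I3 hj)).measurable)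
  have d1 : DepOn (Finset.Icc 1 a) E1 := by
    rw [hE1]
    intro ω ω' hω hm
    have h5 := sum_dep (Finset.Icc 1 a) (fun j x => (j : ℝ) * φ j x) hω
    show s / 2 ≤ ∑ j ∈ Finset.Icc 1 a, (j : ℝ) * φ j (ω' j)
    have h6 : s / 2 ≤ ∑ j ∈ Finset.Icc 1 a, (j : ℝ) * φ j (ω j) := hm
    linarith
  have d2 : DepOn (Finset.Ioc a b) E2 := by
    rw [hE2]
    intro ω ω' hω hm
    simp only [Set.mem_iInter] at hm ⊢
    intro x hx
    obtain ⟨g1, g2⟩ := hm x hx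
    have hω' : ∀ j ∈ Finset.Ioc a x, ω j = ω' j := fun j hj =>
      hω j (Finset.Ioc_subset_Ioc_right (Finset.mem_Icc.1 hx).2 hj)
    have h5 := sum_dep (Finset.Ioc a x) (fun j x => (j : ℝ) * φ j x) hω'
    have h6 := sum_dep (Finset.Ioc a x) φ hω'
    refine ⟨?_, ?_⟩
    · rw [← h5]
      exact g1
    · rw [← h6]
      exact g2
  have d3 : DepOn (Finset.Ioc b L) E3 := by
    rw [hE3]
    intro ω ω' hω hm
    have h5 := sum_dep (Finset.Ioc b L) φ hω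
    show 0 ≤ ∑ j ∈ Finset.Ioc b L, φ j (ω' j)
    have h6 : 0 ≤ ∑ j ∈ Finset.Ioc b L, φ j (ω j) := hm
    linarith
  have d23 : DepOn (Finset.Ioc a L) (E2 ∩ E3) := by
    intro ω ω' hω hm
    exact ⟨d2 ω ω' (fun j hj => hω j (Finset.Ioc_subset_Ioc_right hbL hj)) hm.1,
      d3 ω ω' (fun j hj => hω j (Finset.Ioc_subset_Ioc_left hab hj)) hm.2⟩
  have x1 : PP.real (E1 ∩ (E2 ∩ E3)) = PP.real E1 * PP.real (E2 ∩ E3) := by
    refine h1 (Finset.Icc 1 a) (Finset.Ioc a L) E1 (E2 ∩ E3) ?_ m1 (m2.inter m3) d1 d23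
    rw [Finset.disjoint_left]
    intro j hj hj'
    rw [Finset.mem_Icc] at hj
    rw [Finset.mem_Ioc] at hj'
    omega
  have x2 : PP.real (E2 ∩ E3) = PP.real E2 * PP.real E3 := by
    refine h1 (Finset.Ioc a b) (Finset.Ioc b L) E2 E3 ?_ m2 m3 d2 d3
    rw [Finset.disjoint_left]
    intro j hj hj'
    rw [Finset.mem_Ioc] at hj hj'
    omega
  have x3 : c0 / 4 ≤ PP.real (E1 ∩ (E2 ∩ E3)) := by
    rw [x1, x2]
    have y1 : (1 / 2 : ℝ) * (1 / 2) ≤ PP.real E2 * PP.real E3 :=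
      mul_le_mul p2 p3 (by norm_num) (by linarith)
    have y2 : c0 * ((1 / 2 : ℝ) * (1 / 2)) ≤ PP.real E1 * (PP.real E2 * PP.real E3) :=
      mul_le_mul p1 y1 (by norm_num) (by linarith)
    linarith
  refine x3.trans (measureReal_mono ?_)
  rintro ω ⟨w1, w2, w3⟩
  show ∀ x ∈ Finset.Icc a b, √cv / 8 * A * √(x : ℝ) ≤ Cs (fun j => φ j (ω j)) L x
  intro x hx
  have hx' := Finset.mem_Icc.1 hx
  rw [hE1] at w1
  rw [hE2] at w2
  rw [hE3] at w3
  simp only [Set.mem_iInter] at w2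
  obtain ⟨g1, g2⟩ := w2 x hx
  obtain ⟨-, g3⟩ := w2 b (Finset.mem_Icc.2 ⟨hab, le_rfl⟩)
  rw [Cs_split _ a b L x hx'.1 hx'.2 hbL]
  have w1' : s / 2 ≤ ∑ j ∈ Finset.Icc 1 a, (j : ℝ) * φ j (ω j) := w1
  have w3' : 0 ≤ ∑ j ∈ Finset.Ioc b L, φ j (ω j) := w3
  have hxb : (x : ℝ) ≤ b := by exact_mod_cast hx'.2
  have hxa : (x : ℝ) ≤ 3 / 2 * a := by
    have : h * a ≤ 1 / 2 * a := mul_le_mul_of_nonneg_right hh1 ha0.le
    linarith
  have hx0 : (0 : ℝ) ≤ x := Nat.cast_nonneg _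
  have z1 := (abs_lt.1 g1).1
  have z2 := (abs_lt.1 g2).2
  have z3 := (abs_lt.1 g3).1
  have z4 : -(2 * (s / 8 / (3 * a))) ≤
      (∑ j ∈ Finset.Ioc a b, φ j (ω j)) - ∑ j ∈ Finset.Ioc a x, φ j (ω j) := by linarith
  have z5 : -(s / 8) ≤
      (x : ℝ) * ((∑ j ∈ Finset.Ioc a b, φ j (ω j)) - ∑ j ∈ Finset.Ioc a x, φ j (ω j)) := by
    have v1 : (x : ℝ) * -(2 * (s / 8 / (3 * a))) ≤
        (x : ℝ) * ((∑ j ∈ Finset.Ioc a b, φ j (ω j)) - ∑ j ∈ Finset.Ioc a x, φ j (ω j)) :=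
      mul_le_mul_of_nonneg_left z4 hx0
    have v2 : (x : ℝ) * (2 * (s / 8 / (3 * a))) ≤ 3 / 2 * a * (2 * (s / 8 / (3 * a))) :=
      mul_le_mul_of_nonneg_right hxa (by positivity)
    have v3 : 3 / 2 * a * (2 * (s / 8 / (3 * a))) = s / 8 := by
      field_simp
    linarith
  have z6 : 0 ≤ (x : ℝ) * ∑ j ∈ Finset.Ioc b L, φ j (ω j) := mul_nonneg hx0 w3'
  have z7 : √cv / 8 * A * √(x : ℝ) ≤ s / 4 := by
    have v1 : √(x : ℝ) ≤ 2 * √(a : ℝ) := by
      rw [Real.sqrt_le_left (by positivity), mul_pow, Real.sq_sqrt ha0.le]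
      linarith
    have v2 : √cv / 8 * A * √(x : ℝ) ≤ √cv / 8 * A * (2 * √(a : ℝ)) :=
      mul_le_mul_of_nonneg_left v1 (by positivity)
    have v3 : s = A * (√cv * √(a : ℝ)) := by
      rw [hs, Real.sqrt_mul hcv.le]
    rw [v3]
    linarith
  linarith

/-- the event that the process is large on the set `s` -/
def Ev (φ : ℕ → ℝ → ℝ) (L : ℕ) (t : ℕ → ℝ) (s : Finset ℕ) : Set (ℕ → ℝ) :=
  {ω | ∀ x ∈ s, t x ≤ Cs (fun j => φ j (ω j)) L x}

lemma Ev_meas (φ : ℕ → ℝ → ℝ) (L : ℕ) (t : ℕ → ℝ) (s : Finset ℕ)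
    (hm : ∀ j ∈ Finset.Icc 1 L, Monotone (φ j)) : MeasurableSet (Ev φ L t s) := by
  have h1 : Ev φ L t s = ⋂ x ∈ s, {ω | t x ≤ Cs (fun j => φ j (ω j)) L x} := by
    ext ω
    simp [Ev]
  rw [h1]
  refine Finset.measurableSet_biInter s fun x _ => measurableSet_le measurable_const ?_
  unfold Cs
  refine Finset.measurable_sum _ fun j hj => ?_
  exact (((hm j hj).measurable).comp (measurable_pi_apply j)).const_mul _

lemma Ev_dep (φ : ℕ → ℝ → ℝ) (L : ℕ) (t : ℕ → ℝ) (s : Finset ℕ) :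
    DepOn (Finset.Icc 1 L) (Ev φ L t s) := by
  intro ω ω' h hω x hx
  have h1 := hω x hx
  have h2 : Cs (fun j => φ j (ω' j)) L x = Cs (fun j => φ j (ω j)) L x := by
    unfold Cs
    refine sum_congr rfl fun j hj => ?_
    show _ * φ j (ω' j) = _ * φ j (ω j)
    rw [h j hj]
  rw [h2]
  exact h1

lemma Ev_upper (φ : ℕ → ℝ → ℝ) (L : ℕ) (t : ℕ → ℝ) (s : Finset ℕ)
    (hm : ∀ j ∈ Finset.Icc 1 L, Monotone (φ j)) : IsUpperSet (Ev φ L t s) := by
  intro ω ω' h hω x hx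
  refine (hω x hx).trans ?_
  unfold Cs
  refine sum_le_sum fun j hj => ?_
  exact mul_le_mul_of_nonneg_left (hm j hj (h j)) (Nat.cast_nonneg _)

/-- two events -/
lemma harris2 (h2 : S_harrisN) (I : Finset ℕ) (F G : Set (ℕ → ℝ)) (hF : MeasurableSet F)
    (hG : MeasurableSet G) (hF2 : DepOn I F) (hG2 : DepOn I G) (hF3 : IsUpperSet F)
    (hG3 : IsUpperSet G) : PP.real F * PP.real G ≤ PP.real (F ∩ G) := by
  have h := h2 I (Finset.range 2) (fun i => if i = 0 then F else G) ?_ ?_ ?_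
  · rw [prod_range_succ, prod_range_succ, prod_range_zero, one_mul] at h
    simp only [if_true, one_ne_zero, if_false] at h
    refine h.trans (measureReal_mono ?_ (measure_ne_top _ _))
    intro ω hω
    rw [Set.mem_iInter₂] at hω
    refine ⟨?_, ?_⟩
    · have := hω 0 (by simp)
      simpa using this
    · have := hω 1 (by simp)
      simpa using this
  · intro i _
    by_cases hi : i = 0
    · simp only [hi, if_true]; exact hF
    · simp only [hi, if_false]; exact hG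
  · intro i _
    by_cases hi : i = 0
    · simp only [hi, if_true]; exact hF2
    · simp only [hi, if_false]; exact hG2
  · intro i _
    by_cases hi : i = 0
    · simp only [hi, if_true]; exact hF3
    · simp only [hi, if_false]; exact hG3

theorem crudeW (h1 : BlockW) (h2 : S_harrisN) : ∀ cv Cv κ : ℝ, 0 < cv → 0 < Cv → 0 < κ → ∃ c : ℝ, 0 < c ∧
    ∃ κ1 : ℝ, 0 < κ1 ∧ ∃ δ0 : ℝ, 0 < δ0 ∧ ∀ (φ : ℕ → ℝ → ℝ) (A : ℝ) (L a b : ℕ), AdmW φ A L cv Cv κ → 2 ≤ L →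
    1 ≤ a → a ≤ b → b ≤ L → c * ((a : ℝ) / b) ^ κ1 ≤
      PP.real {ω | ∀ x ∈ Finset.Icc a b, δ0 * A * Real.sqrt x ≤ Cs (fun j => φ j (ω j)) L x} := by
  intro cv Cv κ hcv hCv hκ
  obtain ⟨h, hh0, hh1, c1, hc0, hc1, δ0, hδ, hb⟩ := h1 cv Cv κ hcv hCv hκ
  have hlog : 0 < Real.log (1 + h) := Real.log_pos (by linarith)
  have hlc : 0 < Real.log (1 / c1) := by
    refine Real.log_pos ?_
    rw [lt_div_iff₀ hc0]
    linarith
  obtain ⟨κ1, hκ1⟩ : ∃ κ1, κ1 = Real.log (1 / c1) / Real.log (1 + h) := ⟨_, rfl⟩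
  have hκ0 : 0 < κ1 := by rw [hκ1]; exact div_pos hlc hlog
  have hpow : (1 + h) ^ κ1 = 1 / c1 := by
    rw [Real.rpow_def_of_pos (by linarith), hκ1, mul_div_cancel₀ _ hlog.ne',
      Real.exp_log (by positivity)]
  refine ⟨c1, hc0, κ1, hκ0, δ0, hδ, ?_⟩
  intro φ A L a b hA hL
  have key : ∀ (n a : ℕ), b - a = n → 1 ≤ a → a ≤ b → b ≤ L →
      c1 * ((a : ℝ) / b) ^ κ1 ≤
        PP.real (Ev φ L (fun x => δ0 * A * Real.sqrt x) (Finset.Icc a b)) := by
    intro n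
    induction n using Nat.strong_induction_on with
    | _ n ih =>
      intro a hn ha hab hbL
      have ha0 : (0 : ℝ) < a := by exact_mod_cast ha
      have hb0 : (0 : ℝ) < b := by exact_mod_cast lt_of_lt_of_le ha hab
      have hab' : (a : ℝ) ≤ b := by exact_mod_cast hab
      rcases le_or_gt (b : ℝ) ((1 + h) * a) with hcase | hcase
      · have h3 := hb φ A L a b hA hL ha hab hbL hcase
        have h4 : ((a : ℝ) / b) ^ κ1 ≤ 1 :=
          Real.rpow_le_one (by positivity) ((div_le_one hb0).2 hab') hκ0.le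
        exact (mul_le_of_le_one_right hc0.le h4).trans h3
      · obtain ⟨m, hm⟩ : ∃ m, m = ⌊(1 + h) * (a : ℝ)⌋₊ := ⟨_, rfl⟩
        have hm1 : (m : ℝ) ≤ (1 + h) * a := by
          rw [hm]
          exact Nat.floor_le (by positivity)
        have hm2 : (1 + h) * (a : ℝ) < m + 1 := by
          rw [hm]
          exact Nat.lt_floor_add_one _
        have hm3 : a ≤ m := by
          rw [hm]
          refine Nat.le_floor ?_
          nlinarith
        have hm4 : m < b := by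
          rw [hm]
          exact (Nat.floor_lt (by positivity)).2 hcase
        have h3 := hb φ A L a m hA hL ha hm3 (by omega) hm1
        have h4 := ih (b - (m + 1)) (by omega) (m + 1) rfl (by omega) (by omega) hbL
        have h5 := harris2 h2 (Finset.Icc 1 L)
          (Ev φ L (fun x => δ0 * A * Real.sqrt x) (Finset.Icc a m))
          (Ev φ L (fun x => δ0 * A * Real.sqrt x) (Finset.Icc (m + 1) b))
          (Ev_meas _ _ _ _ hA.mono) (Ev_meas _ _ _ _ hA.mono) (Ev_dep _ _ _ _) (Ev_dep _ _ _ _)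
          (Ev_upper _ _ _ _ hA.mono) (Ev_upper _ _ _ _ hA.mono)
        have h6 : Ev φ L (fun x => δ0 * A * Real.sqrt x) (Finset.Icc a m) ∩
            Ev φ L (fun x => δ0 * A * Real.sqrt x) (Finset.Icc (m + 1) b) ⊆
            Ev φ L (fun x => δ0 * A * Real.sqrt x) (Finset.Icc a b) := by
          rintro ω ⟨h7, h8⟩ x hx
          rw [Finset.mem_Icc] at hx
          rcases le_or_gt x m with h9 | h9
          · exact h7 x (Finset.mem_Icc.2 ⟨hx.1, h9⟩)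
          · exact h8 x (Finset.mem_Icc.2 ⟨h9, hx.2⟩)
        have h7 : c1 * ((a : ℝ) / b) ^ κ1 ≤ c1 * (c1 * (((m + 1 : ℕ) : ℝ) / b) ^ κ1) := by
          refine mul_le_mul_of_nonneg_left ?_ hc0.le
          have h8 : ((1 + h) * ((a : ℝ) / b)) ^ κ1 ≤ (((m + 1 : ℕ) : ℝ) / b) ^ κ1 := by
            refine Real.rpow_le_rpow (by positivity) ?_ hκ0.le
            rw [← mul_div_assoc]
            refine div_le_div_of_nonneg_right ?_ hb0.le
            push_cast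
            exact hm2.le
          rw [Real.mul_rpow (by linarith) (by positivity), hpow] at h8
          calc ((a : ℝ) / b) ^ κ1 = c1 * (1 / c1 * ((a : ℝ) / b) ^ κ1) := by
                field_simp
            _ ≤ c1 * (((m + 1 : ℕ) : ℝ) / b) ^ κ1 := mul_le_mul_of_nonneg_left h8 hc0.le
        have h8 : c1 * (c1 * (((m + 1 : ℕ) : ℝ) / b) ^ κ1) ≤
            PP.real (Ev φ L (fun x => δ0 * A * Real.sqrt x) (Finset.Icc a m)) *
            PP.real (Ev φ L (fun x => δ0 * A * Real.sqrt x) (Finset.Icc (m + 1) b)) :=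
          mul_le_mul h3 h4 (by positivity) measureReal_nonneg
        exact h7.trans (h8.trans (h5.trans (measureReal_mono h6 (measure_ne_top _ _))))
  intro ha hab hbL
  exact key (b - a) a rfl ha hab hbL

theorem gp_crude2 (h1 : S_indep) (h2 : S_half) (h3 : S_cheb) (h4 : S_pz) (h5 : S_harrisN) :
    Pool.Agent.H174.GP.S_crude2 := by
  intro cv Cv κ hcv hCv hκ
  obtain ⟨c, hc, κ1, hκ1, δ0, hδ0, H⟩ := crudeW (blockW h1 h2 h3 h4) h5 (cv / 2) Cv κ (by positivity) hCv hκ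
  refine ⟨c, hc, κ1, hκ1, δ0, hδ0, ?_⟩
  intro φ A L a b hA hL ha hab hbL
  have hA0 := hA.pos
  obtain ⟨ψ, hψ⟩ : ∃ ψ : ℕ → ℝ → ℝ, ψ = fun j x => if j = 1 then 0 else φ j x := ⟨_, rfl⟩
  have hψ1 : ψ 1 = fun _ => 0 := by
    rw [hψ]
    funext x
    simp
  have hψ2 : ∀ j, j ≠ 1 → ψ j = φ j := by
    intro j hj
    rw [hψ]
    funext x
    simp [hj]
  have hW : AdmW ψ A L (cv / 2) Cv κ := by
    refine ⟨hA0, ?_, ?_, ?_, ?_, ?_, ?_, ?_, ?_⟩
    · intro j hj x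
      by_cases h : j = 1
      · rw [h, hψ1]
        simp
      · rw [hψ2 j h]
        exact hA.odd j hj x
    · intro j hj
      by_cases h : j = 1
      · rw [h, hψ1]
        exact monotone_const
      · rw [hψ2 j h]
        exact hA.mono j hj
    · intro n hn hnL
      have g1 : ∀ j ∈ Finset.Icc 2 n, cv * A ^ 2 ≤ ∫ x, ((j : ℝ) * ψ j x) ^ 2 ∂lap := by
        intro j hj
        rw [Finset.mem_Icc] at hj
        have hj1 : j ∈ Finset.Icc 1 L := Finset.mem_Icc.2 ⟨by omega, by omega⟩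
        have hj0 : (0 : ℝ) < j := by
          have : 0 < j := by omega
          exact_mod_cast this
        have h := hA.lo j hj1
        rw [div_le_iff₀ (by positivity)] at h
        rw [hψ2 j (by omega), int_sq]
        linarith
      have g2 := Finset.card_nsmul_le_sum (Finset.Icc 2 n)
        (fun j => ∫ x, ((j : ℝ) * ψ j x) ^ 2 ∂lap) (cv * A ^ 2) g1
      rw [Nat.card_Icc, nsmul_eq_mul] at g2
      have g3 : ∑ j ∈ Finset.Icc 2 n, ∫ x, ((j : ℝ) * ψ j x) ^ 2 ∂lap ≤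
          ∑ j ∈ Finset.Icc 1 n, ∫ x, ((j : ℝ) * ψ j x) ^ 2 ∂lap := by
        refine Finset.sum_le_sum_of_subset_of_nonneg (Finset.Icc_subset_Icc_left (by norm_num)) ?_
        intro j _ _
        exact integral_nonneg fun x => sq_nonneg _
      have g4 : ((n + 1 - 2 : ℕ) : ℝ) = n - 1 := by
        have : n + 1 - 2 = n - 1 := by omega
        rw [this, Nat.cast_sub (by omega), Nat.cast_one]
      rw [g4] at g2
      have g5 : (n : ℝ) / 2 ≤ n - 1 := by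
        have : (2 : ℝ) ≤ n := by exact_mod_cast hn
        linarith
      have g6 : (n : ℝ) / 2 * (cv * A ^ 2) ≤ (n - 1) * (cv * A ^ 2) :=
        mul_le_mul_of_nonneg_right g5 (by positivity)
      calc cv / 2 * A ^ 2 * n = (n : ℝ) / 2 * (cv * A ^ 2) := by ring
        _ ≤ (n - 1) * (cv * A ^ 2) := g6
        _ ≤ _ := g2.trans g3
    · rw [hψ2 2 (by norm_num)]
      have h := hA.lo 2 (Finset.mem_Icc.2 ⟨by norm_num, hL⟩)
      push_cast at h
      have g0 : 0 < cv * A ^ 2 := by positivity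
      linarith
    · intro x
      rw [hψ1]
    · intro j hj
      by_cases h : j = 1
      · rw [h, hψ1]
        simp only [ne_eq, OfNat.ofNat_ne_zero, not_false_eq_true, zero_pow, integral_zero]
        positivity
      · rw [hψ2 j h]
        exact hA.hi j hj
    · intro j hj
      by_cases h : j = 1
      · rw [h, hψ1]
        simp only [ne_eq, OfNat.ofNat_ne_zero, not_false_eq_true, zero_pow, integral_zero]
        positivity
      · rw [hψ2 j h]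
        exact hA.four j hj
    · intro j hj
      by_cases h : j = 1
      · rw [h, hψ1]
        simp
      · rw [hψ2 j h]
        exact hA.int j hj
  refine (H ψ A L a b hW hL ha hab hbL).trans (measureReal_mono ?_)
  intro ω hω x hx
  have h7 : δ0 * A * Real.sqrt x ≤ Cs (fun j => ψ j (ω j)) L x := hω x hx
  have h8 : Cs (fun j => ψ j (ω j)) L x = ∑ j ∈ Finset.Icc 2 L, ((min j x : ℕ) : ℝ) * φ j (ω j) := by
    unfold Cs
    have e0 : Finset.Icc 1 L = insert 1 (Finset.Icc 2 L) := by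
      ext j
      simp only [Finset.mem_Icc, Finset.mem_insert]
      omega
    have e9 : ((min 1 x : ℕ) : ℝ) * ψ 1 (ω 1) = 0 := by
      rw [hψ1]
      simp
    rw [e0, Finset.sum_insert (by simp)]
    show ((min 1 x : ℕ) : ℝ) * ψ 1 (ω 1) + _ = _
    rw [e9, zero_add]
    refine Finset.sum_congr rfl fun j hj => ?_
    rw [Finset.mem_Icc] at hj
    show ((min j x : ℕ) : ℝ) * ψ j (ω j) = _
    rw [hψ2 j (by omega)]
  rw [h8] at h7
  exact h7

end Pool.Agent.H234.GP174.Crude2
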