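import Pool.Agent.H174.GP.StP

/-!
# Symmetric sums are nonnegative with probability at least one half
-/

set_option autoImplicit false

open MeasureTheory ProbabilityTheory Finset

namespace Pool.Agent.H234.GP174

open Pool.Agent.H174.GP

theorem PP_neg (h1 : S_L3) : Measure.map (fun ω : ℕ → ℝ => fun j => - ω j) PP = PP := by
  have h := Measure.infinitePi_map_pi (μ := fun _ : ℕ => lap) (f := fun _ : ℕ => fun x : ℝ => -x)
    (fun _ => measurable_neg)
  unfold PP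
  rw [h]
  congr 1
  funext _
  exact h1.1

theorem gp_half (h1 : S_L3) : Pool.Agent.H174.GP.S_half := by
  intro J φ hm ho
  have hmeas : Measurable (fun ω : ℕ → ℝ => ∑ j ∈ J, φ j (ω j)) :=
    Finset.measurable_sum J fun j hj => (hm j hj).comp (measurable_pi_apply j)
  have hA : MeasurableSet {ω : ℕ → ℝ | 0 ≤ ∑ j ∈ J, φ j (ω j)} :=
    measurableSet_le measurable_const hmeas
  have hneg : Measurable (fun ω : ℕ → ℝ => fun j => - ω j) :=
    measurable_pi_lambda _ fun j => (measurable_pi_apply j).neg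
  have h2 : PP.real {ω : ℕ → ℝ | ∑ j ∈ J, φ j (ω j) ≤ 0} =
      PP.real {ω : ℕ → ℝ | 0 ≤ ∑ j ∈ J, φ j (ω j)} := by
    have h3 : (Measure.map (fun ω : ℕ → ℝ => fun j => - ω j) PP).real
        {ω : ℕ → ℝ | 0 ≤ ∑ j ∈ J, φ j (ω j)} =
        PP.real ((fun ω : ℕ → ℝ => fun j => - ω j) ⁻¹' {ω : ℕ → ℝ | 0 ≤ ∑ j ∈ J, φ j (ω j)}) := by
      rw [Measure.real, Measure.real, Measure.map_apply hneg hA]
    rw [PP_neg h1] at h3
    rw [h3]
    congr 1
    ext ω
    simp only [Set.mem_setOf_eq, Set.mem_preimage]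
    have h4 : ∑ j ∈ J, φ j (- ω j) = - ∑ j ∈ J, φ j (ω j) := by
      rw [← Finset.sum_neg_distrib]
      exact Finset.sum_congr rfl fun j hj => ho j hj _
    rw [h4]
    constructor
    · intro h; linarith
    · intro h; linarith
  have h5 : (1 : ℝ) ≤ PP.real {ω : ℕ → ℝ | 0 ≤ ∑ j ∈ J, φ j (ω j)} +
      PP.real {ω : ℕ → ℝ | ∑ j ∈ J, φ j (ω j) ≤ 0} := by
    have h6 : ({ω : ℕ → ℝ | 0 ≤ ∑ j ∈ J, φ j (ω j)} ∪ {ω : ℕ → ℝ | ∑ j ∈ J, φ j (ω j) ≤ 0}) =
        Set.univ := by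
      ext ω
      simp only [Set.mem_union, Set.mem_setOf_eq, Set.mem_univ, iff_true]
      exact le_total _ _
    have h7 := measureReal_union_le (μ := PP) {ω : ℕ → ℝ | 0 ≤ ∑ j ∈ J, φ j (ω j)}
      {ω : ℕ → ℝ | ∑ j ∈ J, φ j (ω j) ≤ 0}
    rw [h6] at h7
    have h8 : PP.real Set.univ = 1 := by simp
    rw [h8] at h7
    exact h7
  rw [h2] at h5
  linarith

end Pool.Agent.H234.GP174
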